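import Pool.Agent.H63.MV.IntegerIntervals

/-!
# Unions of intervals which weakly tile their complement, but do not tile it properly
-/

set_option autoImplicit false

open MeasureTheory Set

namespace Pool.Agent.Results.MP_f397a6_an.IntegerIntervals

open Pool.H63.MV.IntegerIntervals

/-- For every multiple `n = 117 q` of `117` there is a union `Ω` of `n` intervals with integer end
points which weakly tiles its complement, by a measure `ν` carried by the multiples of `9`, with
masses in `(1/240) ℤ` and such that `ν + δ_0` is periodic.  But `Ω` does not tile its complement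
properly, and it does not tile the line by translations. -/
theorem result (q : ℕ) (hq : 0 < q) :
    ∃ (a b : Fin (q * 117) → ℤ) (Ω : Set ℝ) (ν : Measure ℝ) (w : ℤ → ℕ),
      IsUnion (q * 117) a b Ω ∧
      (∀ k, w (k + 1800 * q) = w k) ∧
      ν + Measure.dirac 0 = Measure.sum (fun k : ℤ =>
        ((w k : ENNReal) / 240) • Measure.dirac ((9 * k : ℤ) : ℝ)) ∧
      IsWeakTiling Ω ν ∧
      (∀ T : Set ℝ, ¬ IsWeakTiling Ω (deltas T)) ∧
      (∀ T : Set ℝ, ¬ ConvEq Ω (deltas T) (fun _ => 1)) :=
  Pool.H63.MV.IntegerIntervals.result q hq

end Pool.Agent.Results.MP_f397a6_an.IntegerIntervals
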